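import Pool.Agent.Helper16.GS.Main
import Pool.Agent.Helper36.GS.Glue
import Pool.Agent.Helper64.GS.Base

/-!
# GS: the theorem, with a polynomial `Φ` which does not depend on the number field

`X` is over `k₀`, the linear forms and the points are over a number field `k` which contains `k₀`.
-/

set_option autoImplicit false

namespace Pool.Agent.GS

open NumberField IntermediateField Pool.Agent.Helper64.Vojta Pool.Agent.VZ Filter MvPolynomial

universe u

/-- one degree -/
theorem main_deg' {k₀ k : Type u} [Field k₀] [NumberField k₀] [Field k] [NumberField k] [Algebra k₀ k] {N n q : ℕ}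
    (hn : 2 ≤ n) (r : ℕ) (hq : r * n + 2 ≤ q) (P : Ideal (MvPolynomial (Fin N) k₀)) [P.IsPrime]
    (hP : Algebra.trdeg k₀ (MvPolynomial (Fin N) k₀ ⧸ P) = n)
    (ℓ : Fin q → Fin (N + 1) → k) (hGP : GP k (ext k (cone P)) ℓ n)
    (hbad : ∀ (K : Type u) [Field K] [Algebra k₀ K] [Algebra k K] [IsScalarTower k₀ k K] (A V : Finset (Fin q))
      (ι : Fin q → Fin q), Comb n A V ι → ¬ Bad (cone P) r A V ι fun i j => algebraMap k K (ℓ i j))
    (S : Finset (Pl k)) (C : ℝ) :
    ∃ Q : MvPolynomial (Fin N) k₀, Q ∉ P ∧ ∀ y : Fin N → AlgebraicClosure k, (∀ f ∈ P, aeval y f = 0) →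
      dg y = r → (∀ i, ∑ j, algebraMap k (fld y) (ℓ i j) * crd y j ≠ 0) → q * hgt y - C ≤ lam ℓ S y →
      aeval y Q = 0 := by
  classical
  by_contra hcon
  push Not at hcon
  have hcount : Countable (MvPolynomial (Fin N) k₀) := Pool.Agent.Helper16.UP.KF.countable_mv k₀ N
  obtain ⟨Q, hQ0, hQd⟩ := exists_seqP P
  choose y hyP hyr hyD hyN hyQ using fun n => hcon (Q n) (hQ0 n)
  let i0 : Fin q := ⟨0, by omega⟩
  obtain ⟨T, hT⟩ := Pool.Agent.Helper64.GH.units S r ℓ C i0
  choose x s c hc hxs hx0 hxu hxf using fun n => hT (y n) (hyr n) (hyD n) (hyN n)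
  set U : Ultrafilter ℕ := Filter.hyperfilter ℕ with hU
  obtain ⟨s0, hs0⟩ := Pool.Agent.Helper26.DMC.SU1.ult_finite U (Set.univ : Set (Fin r))
    Set.finite_univ s (Eventually.of_forall fun _ => Set.mem_univ _)
  obtain ⟨D, hD1, hD2⟩ := SL.germs (k := k) U
  let algO : Algebra k₀ (SL.Om k U) := ((algebraMap k (SL.Om k U)).comp (algebraMap k₀ k)).toAlgebra
  have towO : IsScalarTower k₀ k (SL.Om k U) := IsScalarTower.of_algebraMap_eq fun x => rfl
  let X : Fin r → Fin (N + 1) → SL.Om k U := fun σ j => SL.gm U fun n => x n σ j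
  have hlin : ∀ (m : Fin (N + 1) → k) (z : ℕ → Fin (N + 1) → AlgebraicClosure k),
      lin (K := SL.Om k U) m (fun i => SL.gm U fun n => z n i) =
        SL.gm U fun n => ∑ j, algebraMap k (AlgebraicClosure k) (m j) * z n j := by
    intro m z
    unfold lin
    have h : (fun n => ∑ j, algebraMap k (AlgebraicClosure k) (m j) * z n j) =
        ∑ j, (fun _ : ℕ => algebraMap k (AlgebraicClosure k) (m j)) * fun n => z n j := by
      funext n
      rw [Finset.sum_apply]
      rfl
    rw [h, map_sum]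
    exact Finset.sum_congr rfl fun j _ => by rw [map_mul]; rfl
  have huu : ∀ i, uu ℓ X i = SL.gm U fun n => ∏ σ, ∑ j, algebraMap k (AlgebraicClosure k) (ℓ i j) * x n σ j := by
    intro i
    unfold uu
    have h : (fun n => ∏ σ, ∑ j, algebraMap k (AlgebraicClosure k) (ℓ i j) * x n σ j) =
        ∏ σ, fun n => ∑ j, algebraMap k (AlgebraicClosure k) (ℓ i j) * x n σ j := by
      funext n
      rw [Finset.prod_apply]
    rw [h, map_prod]
    exact Finset.prod_congr rfl fun σ _ => hlin (ℓ i) fun n => x n σ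
  have huU : ∀ i, D.U (uu ℓ X i) := by
    intro i
    rw [huu]
    exact hD2 T _ (Filter.Eventually.of_forall fun n => hxu n i)
  -- polynomials over `k₀`
  have haev : ∀ {τ : Type} (f : MvPolynomial τ k₀) (z : ℕ → τ → AlgebraicClosure k),
      aeval (fun j => SL.gm U fun n => z n j) f = SL.gm U fun n => aeval (z n) f := by
    intro τ f z
    rw [← aeval_map_algebraMap k, SL.aeval_gm]
    congr 1
    funext n
    rw [aeval_map_algebraMap]
  have hX : ∀ σ, OnX (cone P) (X σ) := by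
    rintro σ f ⟨⟨d, hd⟩, hf⟩
    show aeval (fun j => SL.gm U fun n => x n σ j) f = 0
    rw [haev, SL.gm_zero]
    refine Filter.Eventually.of_forall fun n => ?_
    have h0 := hxf n σ d (MvPolynomial.map (algebraMap k₀ k) f) (hd.map _) (by
      rw [aeval_map_algebraMap]
      have h1 := hyP n _ hf
      rw [← h1]
      have h2 : (aeval (y n)).comp
          (aeval (Fin.cons 1 MvPolynomial.X : Fin (N + 1) → MvPolynomial (Fin N) k₀)) =
          aeval (Fin.cons 1 (y n) : Fin (N + 1) → AlgebraicClosure k) := by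
        apply MvPolynomial.algHom_ext
        intro j
        refine Fin.cases ?_ (fun j => ?_) j
        · simp
        · simp
      rw [← h2]
      rfl)
    rwa [aeval_map_algebraMap] at h0
  have hfin : Module.Finite k₀ k := Module.Finite.of_restrictScalars_finite ℚ k₀ k
  have halg : Algebra.IsAlgebraic k₀ k := Algebra.IsAlgebraic.of_finite k₀ k
  have hgen : (n : ℕ∞) ≤ rk k (Rat (X s0)) := by
    refine le_trans ?_ (rk_base_le k₀ k (Rat (X s0)))
    have h1 := generic_point P hP (K := SL.Om k U) (fun j => SL.gm U fun n => y n j) (by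
      intro f hf
      by_contra hfP
      rw [haev, SL.gm_zero] at hf
      obtain ⟨M, hM⟩ := hQd f hfP
      have h2 : ∀ᶠ n in (U : Filter ℕ), M ≤ n := by
        have h3 : ∀ᶠ n in Filter.cofinite, M ≤ n := by
          rw [Nat.cofinite_eq_atTop]
          exact Filter.eventually_ge_atTop M
        exact h3.filter_mono (Filter.hyperfilter_le_cofinite)
      obtain ⟨m, h3, h4⟩ := (hf.and h2).exists
      obtain ⟨R, hR⟩ := hM m h4
      apply hyQ m
      rw [hR, map_mul, h3, zero_mul])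
    have hc0 : SL.gm U c ≠ 0 := by
      intro h
      rw [SL.gm_zero] at h
      obtain ⟨m, hm⟩ := h.exists
      exact hc m hm
    have h2 : X s0 = fun j => SL.gm U c * (Fin.cons 1 (fun j => SL.gm U fun n => y n j) :
        Fin (N + 1) → SL.Om k U) j := by
      funext j
      have h3 : X s0 j = SL.gm U fun n => c n * (Fin.cons 1 (y n) : Fin (N + 1) → AlgebraicClosure k) j := by
        show SL.gm U (fun n => x n s0 j) = _
        rw [SL.gm_eq]
        filter_upwards [hs0] with m hm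
        rw [← hm]
        exact hxs m j
      rw [h3]
      have h4 : (fun n => c n * (Fin.cons 1 (y n) : Fin (N + 1) → AlgebraicClosure k) j) =
          c * fun n => (Fin.cons 1 (y n) : Fin (N + 1) → AlgebraicClosure k) j := rfl
      rw [h4, map_mul]
      congr 1
      refine Fin.cases ?_ (fun j => ?_) j
      · exact map_one (SL.gm U)
      · rfl
    rw [h2, Rat_mul _ _ hc0]
    exact h1
  obtain ⟨F, Ω, _, _, _, _, _, _, hT1, hT2, hF, hgen', hrank⟩ := init D ℓ s0 X
    (fun i j => (huU i).div (huU j)) hgen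
  have hu' : (uu (fun i j => algebraMap k F (ℓ i j)) fun σ j => algebraMap (SL.Om k U) Ω (X σ j)) =
      fun i => algebraMap (SL.Om k U) Ω (uu ℓ X i) := by
    funext i
    unfold uu
    rw [map_prod]
    refine Finset.prod_congr rfl fun σ _ => ?_
    unfold lin
    rw [map_sum]
    refine Finset.sum_congr rfl fun j _ => ?_
    rw [map_mul, ← IsScalarTower.algebraMap_apply k F Ω, IsScalarTower.algebraMap_apply k (SL.Om k U) Ω]
  obtain ⟨A, V, ι, hcomb, hb⟩ := core (F := F) (Ω := Ω) (n := n) (ext F (ext k (cone P)))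
    (homog_ext (homog_ext (homog_cone P))) (by omega) hq (fun i j => algebraMap k F (ℓ i j)) (gp_ext hGP) s0
    (fun σ j => algebraMap (SL.Om k U) Ω (X σ j)) (by
      intro σ
      rw [onX_ext]
      intro f hf
      have h1 : aeval (fun j => algebraMap (SL.Om k U) Ω (X σ j)) f = algebraMap (SL.Om k U) Ω (aeval (X σ) f) :=
        aeval_algebraMap_apply Ω (X σ) f
      rw [h1, (onX_ext (cone P) (X σ)).2 (hX σ) f hf, map_zero]) (by
      intro i
      rw [hu']
      intro h
      exact (huU i).1 ((map_eq_zero _).1 h)) hgen' (by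
      rw [hu']
      exact hrank)
  let algF : Algebra k₀ F := ((algebraMap k F).comp (algebraMap k₀ k)).toAlgebra
  have towF : IsScalarTower k₀ k F := IsScalarTower.of_algebraMap_eq fun x => rfl
  obtain ⟨σ₀, z, c', h1, h2⟩ := hb
  exact hbad F A V ι hcomb ⟨σ₀, z, c', fun i hi σ => (onX_ext (cone P) _).1 ((onX_ext _ _).1 (h1 i hi σ)), h2⟩

theorem main' {k₀ : Type u} [Field k₀] [NumberField k₀] {N n r q : ℕ} (hn : 2 ≤ n) (hq : r * n + 2 ≤ q)
    (P : Ideal (MvPolynomial (Fin N) k₀)) [P.IsPrime] (hP : Algebra.trdeg k₀ (MvPolynomial (Fin N) k₀ ⧸ P) = n) :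
    ∃ Φ : MvPolynomial (Fin q × Fin (N + 1)) k₀, Φ ≠ 0 ∧
      ∀ (k : Type u) [Field k] [NumberField k] [Algebra k₀ k] (ℓ : Fin q → Fin (N + 1) → k),
      aeval (fun p : Fin q × Fin (N + 1) => ℓ p.1 p.2) Φ ≠ 0 → ∀ (S : Finset (Pl k)) (C : ℝ),
      ∃ Q : MvPolynomial (Fin N) k₀, Q ∉ P ∧ ∀ y : Fin N → AlgebraicClosure k, (∀ f ∈ P, aeval y f = 0) →
        dg y ≤ r → (∀ i, ∑ j, algebraMap k (fld y) (ℓ i j) * crd y j ≠ 0) → q * hgt y - C ≤ lam ℓ S y →
        aeval y Q = 0 := by
  classical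
  have hI : Homog (cone P) := homog_cone P
  have hD : Dim k₀ (cone P) n := dim_le P hP
  obtain ⟨Φ₀, hΦ₀, hG⟩ := gp_generic_ext (q := q) (cone P) hD
  have hq' : ∀ d ∈ Finset.range (r + 1), d * n + 2 ≤ q := by
    intro d hd
    have h1 : d ≤ r := by
      rw [Finset.mem_range] at hd
      omega
    have h2 := Nat.mul_le_mul_right n h1
    omega
  have hb : ∀ d : ℕ, ∃ Φ : MvPolynomial (Fin q × Fin (N + 1)) k₀, Φ ≠ 0 ∧ (d ∈ Finset.range (r + 1) →
      ∀ (K : Type u) [Field K] [Algebra k₀ K] (ℓ : Fin q → Fin (N + 1) → K) (A V : Finset (Fin q))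
        (ι : Fin q → Fin q), Comb n A V ι → Bad (cone P) d A V ι ℓ →
        aeval (fun p : Fin q × Fin (N + 1) => ℓ p.1 p.2) Φ = 0) := by
    intro d
    by_cases hd : d ∈ Finset.range (r + 1)
    · obtain ⟨Φ, h1, h2⟩ := bad_poly_of (n := n) (q := q) d (cone P) (fun L _ _ ℓ A V ι hc hind =>
        not_bad_of (cone P) hI A V ι hc (fun K _ _ l μ h1 h2 x hx hX =>
          special (cone P) hD hn (hq' d hd) A V ι hc l μ h1 h2 x hx hX) ℓ hind)
      exact ⟨Φ, h1, fun _ => h2⟩
    · exact ⟨1, one_ne_zero, fun h => absurd h hd⟩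
  choose Φ hΦ hB using hb
  refine ⟨Φ₀ * ∏ d ∈ Finset.range (r + 1), Φ d, mul_ne_zero hΦ₀ (Finset.prod_ne_zero_iff.2 fun d _ => hΦ d), ?_⟩
  intro k _ _ _ ℓ hℓ S C
  rw [map_mul, map_prod, mul_ne_zero_iff, Finset.prod_ne_zero_iff] at hℓ
  have hGP : GP k (ext k (cone P)) ℓ n := hG k ℓ hℓ.1
  have hdeg : ∀ d : ℕ, ∃ Q : MvPolynomial (Fin N) k₀, Q ∉ P ∧ (d ∈ Finset.range (r + 1) →
      ∀ y : Fin N → AlgebraicClosure k, (∀ f ∈ P, aeval y f = 0) →
      dg y = d → (∀ i, ∑ j, algebraMap k (fld y) (ℓ i j) * crd y j ≠ 0) → q * hgt y - C ≤ lam ℓ S y →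
      aeval y Q = 0) := by
    intro d
    by_cases hd : d ∈ Finset.range (r + 1)
    · obtain ⟨Q, h1, h2⟩ := main_deg' hn d (hq' d hd) P hP ℓ hGP (by
        intro K _ _ _ _ A V ι hc h
        apply hℓ.2 d hd
        have h3 := hB d hd K _ A V ι hc h
        have h4 : aeval (fun p : Fin q × Fin (N + 1) => algebraMap k K (ℓ p.1 p.2)) (Φ d) =
            algebraMap k K (aeval (fun p : Fin q × Fin (N + 1) => ℓ p.1 p.2) (Φ d)) :=
          aeval_algebraMap_apply K (fun p : Fin q × Fin (N + 1) => ℓ p.1 p.2) (Φ d)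
        rw [h4, map_eq_zero] at h3
        exact h3) S C
      exact ⟨Q, h1, fun _ => h2⟩
    · exact ⟨1, fun h => (inferInstance : P.IsPrime).ne_top ((Ideal.eq_top_iff_one P).2 h), fun h => absurd h hd⟩
  choose Q hQ0 hQ using hdeg
  refine ⟨∏ d ∈ Finset.range (r + 1), Q d, ?_, ?_⟩
  · intro h
    obtain ⟨i, -, hi⟩ := (Ideal.IsPrime.prod_mem_iff (hp := inferInstance)).1 h
    exact hQ0 i hi
  · intro y hy hd h1 h2
    rw [map_prod]
    have h3 : dg y ∈ Finset.range (r + 1) := Finset.mem_range.2 (by omega)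
    exact Finset.prod_eq_zero h3 (hQ _ h3 y hy rfl h1 h2)

end Pool.Agent.GS
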