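import Mathlib
import Pool.Agent.Helper16.GS.Uniform

/-!
Integral points of bounded degree on the complement of generic hyperplane sections.

`X` is an irreducible closed subvariety of the projective space `P^N` over a number field `k₀`, not contained in the
hyperplane at infinity, of dimension `n ≥ 2`. It is given by the prime ideal `P` of its affine part; the dimension
is the transcendence degree of `k₀[Y_1, …, Y_N] / P`. `k` is a number field which contains `k₀`, `D` is the sum of `q`
hyperplane sections `ℓ i = 0` of `X`, where the linear forms `ℓ i` have coefficients in `k`, and `q ≥ r n + 2`. Points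
are given by their affine coordinates `y = (y_1, …, y_N)`, in the algebraic closure of `k`: the point
`(1 : y_1 : … : y_N)`. `Pl`, `nv`, `sn` (in `Pool/Agent/Helper64/Vojta/Places.lean`) are the places, the normalised
absolute values and the maximum of the absolute values of the coordinates, `above` (in `OneSpace.lean`) the set of
places above a place.
-/

namespace Pool.Agent.Results.MP_71c16a_nt.GenericSections

open NumberField IntermediateField Pool.Agent.Helper64.Vojta

universe u

section

variable {k : Type u} [Field k] [NumberField k] {N : ℕ}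

/-- The field generated over `k` by the affine coordinates of the point. -/
noncomputable def fld (y : Fin N → AlgebraicClosure k) : IntermediateField k (AlgebraicClosure k) :=
  adjoin k (Set.range y)

/-- It is a number field. -/
instance numberField_fld (y : Fin N → AlgebraicClosure k) : NumberField (fld y) := by
  have : FiniteDimensional k (fld y) :=
    finiteDimensional_adjoin fun x _ => Algebra.IsIntegral.isIntegral x
  have h0 : CharZero (fld y) := charZero_of_injective_algebraMap (algebraMap k (fld y)).injective
  have h1 : FiniteDimensional ℚ (fld y) := Module.Finite.trans k (fld y)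
  exact { to_charZero := h0, to_finiteDimensional := h1 }

/-- The degree of the point over `k`. -/
noncomputable def dg (y : Fin N → AlgebraicClosure k) : ℕ := Module.finrank k (fld y)

/-- The homogeneous coordinates `(1 : y_1 : … : y_N)` of the point. -/
noncomputable def crd (y : Fin N → AlgebraicClosure k) : Fin (N + 1) → fld y :=
  Fin.cons 1 fun i => ⟨y i, subset_adjoin k _ (Set.mem_range_self i)⟩

/-- The value of the linear form `ℓ` at the point. -/
noncomputable def val (ℓ : Fin (N + 1) → k) (y : Fin N → AlgebraicClosure k) : fld y :=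
  ∑ j, algebraMap k (fld y) (ℓ j) * crd y j

/-- Logarithmic height, relative to `k`; `Height.logHeight` is Mathlib's height relative to the field of
the coordinates. -/
noncomputable def hgt (y : Fin N → AlgebraicClosure k) : ℝ := Height.logHeight (crd y) / dg y

/-- The Weil function, relative to `k`, of the hyperplane `ℓ = 0` at the place `ν` of `k`. -/
noncomputable def lam (ℓ : Fin (N + 1) → k) (ν : Pl k) (y : Fin N → AlgebraicClosure k) : ℝ :=
  (∑ w ∈ above (fld y) ν, (Real.log (sn w (crd y)) - Real.log (nv w (val ℓ y)))) / dg y

end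

/-- Let `n ≥ 2` be the dimension of `X` and `q ≥ r n + 2`. There is a nonzero polynomial `Φ` over `k₀` in the
coefficients of `q` linear forms with the following property. Let `k` be a number field which contains `k₀`, let the
`ℓ i` be linear forms over `k` with `Φ(ℓ) ≠ 0`, and let `D` be the sum of the sections `ℓ i = 0` of `X`. Then for all `S`
and `C` there is a polynomial `Q` over `k₀`, not identically zero on `X`, which is zero at all points `y` of `X` outside `D`
of degree at most `r` over `k` with `∑_{ν ∈ S} λ_D(y,ν) ≥ q h(y) - C`. -/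
theorem result (k₀ : Type u) [Field k₀] [NumberField k₀] (N n r q : ℕ) (hn : 2 ≤ n) (hq : r * n + 2 ≤ q)
    (P : Ideal (MvPolynomial (Fin N) k₀)) [P.IsPrime]
    (hP : Algebra.trdeg k₀ (MvPolynomial (Fin N) k₀ ⧸ P) = n) :
    ∃ Φ : MvPolynomial (Fin q × Fin (N + 1)) k₀, Φ ≠ 0 ∧
      ∀ (k : Type u) [Field k] [NumberField k] [Algebra k₀ k] (ℓ : Fin q → Fin (N + 1) → k),
      MvPolynomial.aeval (fun p : Fin q × Fin (N + 1) => ℓ p.1 p.2) Φ ≠ 0 →
      ∀ (S : Finset (Pl k)) (C : ℝ), ∃ Q : MvPolynomial (Fin N) k₀, Q ∉ P ∧
        ∀ y : Fin N → AlgebraicClosure k, (∀ f ∈ P, MvPolynomial.aeval y f = 0) → dg y ≤ r →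
          (∀ i, val (ℓ i) y ≠ 0) → q * hgt y - C ≤ ∑ ν ∈ S, ∑ i, lam (ℓ i) ν y →
          MvPolynomial.aeval y Q = 0 := by
  obtain ⟨Φ, hΦ, h⟩ := Pool.Agent.GS.main' (r := r) hn hq P hP
  refine ⟨Φ, hΦ, fun k _ _ _ ℓ hℓ S C => ?_⟩
  obtain ⟨Q, hQ, h2⟩ := h k ℓ hℓ S C
  refine ⟨Q, hQ, fun y hy hD hN hC => h2 y hy hD hN (hC.trans (le_of_eq ?_))⟩
  unfold Pool.Agent.VZ.lam
  rw [Finset.sum_div]
  refine Finset.sum_congr rfl fun ν _ => ?_
  unfold lam
  rw [← Finset.sum_div]
  congr 1
  rw [Finset.sum_comm]
  rfl

end Pool.Agent.Results.MP_71c16a_nt.GenericSections
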