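import Pool.Agent.Helper16.GH.Const
import Pool.Agent.Helper77.GS.Defs

/-!
# GS, block S: the constants

PROOF. `y` algebraically independent over `k`. `B` = a maximal set of monomials `u^m`, `∑ m = 0`, which is algebraically independent over
`k(y)`; `K` = the algebraic closure of `k(B)` in `Ω`. Any `n + 1` monomials and `B` are algebraic over `k(y, B)`, so they are
algebraically dependent over `k`; by `mrel` they are multiplicatively dependent mod constants. `init`: `Ω = AlgebraicClosure Ω₀`, `F` = the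
algebraic closure of `K` in `Ω`.
-/

set_option autoImplicit false

namespace Pool.Agent.GS

open AlgebraicIndependent

universe u v

section

variable {k : Type u} {Ω : Type v} [Field k] [Field Ω] [Algebra k Ω]

theorem constants (D : SL.Dat k Ω) {n q : ℕ} (u : Fin q → Ω) (hu0 : ∀ i, u i ≠ 0)
    (hu : ∀ m : Fin q → ℤ, ∑ i, m i = 0 → D.U (∏ i, u i ^ m i)) (y : Fin n → Ω)
    (hy : AlgebraicIndependent k y) :
    ∃ K : IntermediateField k Ω, AlgebraicIndependent K y ∧
      ∀ e : Fin (n + 1) → Fin q → ℤ, (∀ b, ∑ i, e b i = 0) → ∃ a : Fin (n + 1) → ℤ, a ≠ 0 ∧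
        ∏ i, u i ^ ∑ b, a b * e b i ∈ K := by
  classical
  set G : Set Ω := {z | ∃ m : Fin q → ℤ, ∑ i, m i = 0 ∧ z = ∏ i, u i ^ m i} with hG
  have hGU : ∀ z ∈ G, D.U z := by
    rintro _ ⟨m, hm, rfl⟩
    exact hu m hm
  have hYind : (matroid k Ω).Indep (Set.range y) := by
    rw [matroid_indep_iff]
    exact hy.coe_range
  obtain ⟨I, hI, hYI⟩ := hYind.subset_isBasis_of_subset
    (Set.subset_union_left : Set.range y ⊆ Set.range y ∪ G) (by simp)
  set B : Set Ω := I \ Set.range y with hB
  have hBG : B ⊆ G := by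
    intro z hz
    rcases hI.subset hz.1 with h | h
    · exact absurd h hz.2
    · exact h
  have hIY : I = Set.range y ∪ B := by
    rw [hB, Set.union_sdiff_cancel hYI]
  have hIind : AlgebraicIndependent k ((↑) : I → Ω) := by
    have := hI.indep
    rwa [matroid_indep_iff] at this
  -- finiteness
  have hGcl : G ⊆ (matroid k Ω).closure (Set.range u) := by
    rintro _ ⟨m, -, rfl⟩
    have h1 : ∀ s : Finset (Fin q), ∏ i ∈ s, u i ^ m i ∈ (matroid k Ω).closure (Set.range u) := by
      intro s
      induction s using Finset.induction_on with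
      | empty => rw [Finset.prod_empty]; exact SL.cl_cst ⟨1, (map_one _).symm⟩
      | insert i s hi ih =>
        rw [Finset.prod_insert hi]
        exact SL.cl_mul (SL.cl_zpow (Matroid.mem_closure_of_mem _ (Set.mem_range_self i) (by simp)) _) ih
    exact h1 _
  have hBfin : B.Finite := by
    have h1 : (matroid k Ω).Indep B := hI.indep.subset Set.sdiff_subset
    have h2 := (matroid k Ω).eRk_mono (hBG.trans hGcl)
    rw [Matroid.eRk_closure_eq, h1.eRk_eq_encard] at h2
    have h3 := h2.trans ((matroid k Ω).eRk_le_encard _)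
    exact Set.finite_of_encard_le_coe (k := q) (h3.trans (by
      rw [← Set.image_univ]
      refine (Set.encard_image_le _ _).trans ?_
      rw [Set.encard_univ]
      simp))
  have : Fintype B := hBfin.fintype
  -- independence of `y` over `k(B)`
  have hsum : AlgebraicIndependent k (Sum.elim y ((↑) : B → Ω)) := by
    let f : Fin n ⊕ B → I := Sum.elim (fun i => ⟨y i, hYI (Set.mem_range_self i)⟩) (fun b => ⟨b.1, b.2.1⟩)
    have hf : Function.Injective f := by
      rintro (i | b) (j | c) h
      · exact congrArg _ (hy.injective (congrArg Subtype.val h))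
      · exact absurd ⟨i, congrArg Subtype.val h⟩ c.2.2
      · exact absurd ⟨j, (congrArg Subtype.val h).symm⟩ b.2.2
      · exact congrArg _ (Subtype.ext (congrArg Subtype.val h :))
    have h1 := hIind.comp f hf
    convert h1 using 1
    funext i
    rcases i with i | b <;> rfl
  have hyB : AlgebraicIndependent (IntermediateField.adjoin k B) y := by
    rw [IntermediateField.algebraicIndependent_adjoin_iff]
    have h1 := (sumElim_iff.1 hsum).2
    rwa [Subtype.range_coe] at h1
  refine ⟨IntermediateField.adjoin k B, hyB, ?_⟩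
  intro e he
  let f : Fin (n + 1) ⊕ B → Ω := Sum.elim (fun b => ∏ i, u i ^ e b i) ((↑) : B → Ω)
  have hfG : ∀ i, f i ∈ G := by
    rintro (i | b)
    · exact ⟨e i, he i, rfl⟩
    · exact hBG b.2
  have hdep : ¬ AlgebraicIndependent k f := by
    intro hf
    have h1 : (matroid k Ω).Indep (Set.range f) := by
      rw [matroid_indep_iff]
      exact hf.coe_range
    have h2 : Set.range f ⊆ (matroid k Ω).closure I := by
      rw [hI.closure_eq_closure]
      rintro _ ⟨i, rfl⟩
      exact Matroid.mem_closure_of_mem _ (Or.inr (hfG i)) (by simp)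
    have h3 := (matroid k Ω).eRk_mono h2
    rw [Matroid.eRk_closure_eq, h1.eRk_eq_encard, hI.indep.eRk_eq_encard] at h3
    have h4 : (Set.range f).encard = ((n + 1 + Fintype.card B : ℕ) : ℕ∞) := by
      rw [← Set.image_univ, hf.injective.encard_image, Set.encard_univ, ENat.card_eq_coe_fintype_card,
        Fintype.card_sum, Fintype.card_fin]
    have h5 : I.encard ≤ ((n + Fintype.card B : ℕ) : ℕ∞) := by
      rw [hIY]
      refine (Set.encard_union_le _ _).trans ?_
      have h6 : (Set.range y).encard = (n : ℕ∞) := by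
        rw [← Set.image_univ, hy.injective.encard_image, Set.encard_univ]
        simp
      have h7 : B.encard = (Fintype.card B : ℕ∞) := by
        rw [← Set.coe_fintypeCard]
      rw [h6, h7]
      push_cast
      exact le_rfl
    rw [h4] at h3
    have h6 := h3.trans h5
    rw [Nat.cast_le] at h6
    omega
  obtain ⟨δ, hδ, a, ha⟩ := GH.mrel D f (fun i => hGU _ (hfG i)) hdep
  rw [Fintype.prod_sum_type] at ha
  have hb0 : ∀ b : B, (b : Ω) ≠ 0 := fun b => (hGU _ (hBG b.2)).1
  refine ⟨fun b => δ (Sum.inl b), ?_, ?_⟩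
  · intro hcon
    refine GH.mrel_conv ((↑) : B → Ω) hb0 (fun b => δ (Sum.inr b)) ?_ a ?_ (sumElim_iff.1 hsum).1
    · intro h
      apply hδ
      funext i
      rcases i with i | b
      · exact congrFun hcon i
      · exact congrFun h b
    · rw [← ha]
      have h1 : ∏ i : Fin (n + 1), f (Sum.inl i) ^ δ (Sum.inl i) = 1 :=
        Finset.prod_eq_one fun i _ => by
          have h2 : δ (Sum.inl i) = 0 := congrFun hcon i
          rw [h2, zpow_zero]
      rw [h1, one_mul]
      rfl
  · have hpw : ∀ (z : Ω) (hz : z ≠ 0) (g : Fin (n + 1) → ℤ) (s : Finset (Fin (n + 1))),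
        z ^ ∑ b ∈ s, g b = ∏ b ∈ s, z ^ g b := by
      intro z hz g s
      induction s using Finset.induction_on with
      | empty => simp
      | insert i s hi ih => rw [Finset.prod_insert hi, Finset.sum_insert hi, zpow_add₀ hz, ih]
    have h1 : ∏ i, u i ^ ∑ b, δ (Sum.inl b) * e b i = ∏ b : Fin (n + 1), f (Sum.inl b) ^ δ (Sum.inl b) := by
      have h2 : ∀ i, u i ^ ∑ b, δ (Sum.inl b) * e b i = ∏ b, u i ^ (δ (Sum.inl b) * e b i) :=
        fun i => hpw _ (hu0 i) _ _
      rw [Finset.prod_congr rfl fun i _ => h2 i, Finset.prod_comm]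
      refine Finset.prod_congr rfl fun b _ => ?_
      show _ = (∏ i, u i ^ e b i) ^ δ (Sum.inl b)
      rw [← Finset.prod_zpow]
      refine Finset.prod_congr rfl fun i _ => ?_
      rw [mul_comm, zpow_mul]
    rw [h1]
    have h2 : ∏ b : B, (b : Ω) ^ δ (Sum.inr b) ≠ 0 :=
      Finset.prod_ne_zero_iff.2 fun b _ => zpow_ne_zero _ (hb0 b)
    have h3 : ∏ b : Fin (n + 1), f (Sum.inl b) ^ δ (Sum.inl b) =
        algebraMap k Ω a / ∏ b : B, (b : Ω) ^ δ (Sum.inr b) := by
      rw [eq_div_iff h2]
      exact ha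
    rw [h3]
    exact div_mem (algebraMap_mem _ a)
      (prod_mem fun b _ => zpow_mem (IntermediateField.subset_adjoin k B b.2) _)

end

theorem init {k Ω₀ : Type u} [Field k] [Field Ω₀] [Algebra k Ω₀] (D : SL.Dat k Ω₀) {N n q r : ℕ}
    (ℓ : Fin q → Fin (N + 1) → k) (s0 : Fin r) (y : Fin r → Fin (N + 1) → Ω₀)
    (hu : ∀ i j, D.U (uu ℓ y i / uu ℓ y j))
    (hgen : (n : ℕ∞) ≤ rk k (Rat (y s0))) :
    ∃ (F Ω : Type u) (_ : Field F) (_ : Field Ω) (_ : Algebra k F) (_ : Algebra F Ω) (_ : Algebra Ω₀ Ω)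
      (_ : Algebra k Ω) (_ : IsScalarTower k F Ω) (_ : IsScalarTower k Ω₀ Ω), IsAlgClosed F ∧
      (n : ℕ∞) ≤ rk F (Rat fun j => algebraMap Ω₀ Ω (y s0 j)) ∧
      Rk F (fun i => algebraMap Ω₀ Ω (uu ℓ y i)) n := by
  classical
  set u : Fin q → Ω₀ := uu ℓ y with hudef
  have hu0 : ∀ i, u i ≠ 0 := by
    intro i h
    apply (hu i i).1
    rw [h, div_zero]
  -- monomials
  have hmon : ∀ m : Fin q → ℤ, ∑ i, m i = 0 → D.U (∏ i, u i ^ m i) := by
    intro m hm
    rcases Nat.eq_zero_or_pos q with hq | hq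
    · subst hq
      rw [Finset.prod_of_isEmpty]
      exact SL.Dat.U.one D
    · let i0 : Fin q := ⟨0, hq⟩
      have h1 : ∏ i, u i ^ m i = ∏ i, (u i / u i0) ^ m i := by
        have h2 : ∀ i, (u i / u i0) ^ m i = u i ^ m i / u i0 ^ m i := fun i => div_zpow _ _ _
        rw [Finset.prod_congr rfl fun i _ => h2 i, Finset.prod_div_distrib]
        have h3 : ∀ s : Finset (Fin q), ∏ i ∈ s, u i0 ^ m i = u i0 ^ ∑ i ∈ s, m i := by
          intro s
          induction s using Finset.induction_on with
          | empty => simp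
          | insert i s hi ih => rw [Finset.prod_insert hi, Finset.sum_insert hi, zpow_add₀ (hu0 i0), ih]
        rw [h3, hm, zpow_zero, div_one]
      rw [h1]
      exact SL.Dat.U.prod _ fun i _ => (hu i i0).zpow _
  -- an independent family
  obtain ⟨w, hwR, hw⟩ : ∃ w : Fin n → Ω₀, (∀ i, w i ∈ Rat (y s0)) ∧ AlgebraicIndependent k w := by
    obtain ⟨J, hJ⟩ := (matroid k Ω₀).exists_isBasis (Rat (y s0)) (by simp)
    have h1 : (n : ℕ∞) ≤ J.encard := by
      rw [hJ.encard_eq_eRk]
      exact hgen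
    obtain ⟨J', hJ', hJ'c⟩ := Set.exists_subset_encard_eq h1
    have hfin : J'.Finite := Set.finite_of_encard_eq_coe hJ'c
    have hcard : hfin.toFinset.card = n := by
      rw [hfin.encard_eq_coe_toFinset_card, Nat.cast_inj] at hJ'c
      exact hJ'c
    let e := (hfin.toFinset.equivFinOfCardEq hcard).symm
    have hind := (hJ.indep.subset hJ')
    rw [matroid_indep_iff] at hind
    refine ⟨fun i => (e i : Ω₀), fun i => hJ.subset (hJ' ((hfin.mem_toFinset).1 (e i).2)), ?_⟩
    exact hind.comp (fun i => ⟨(e i : Ω₀), (hfin.mem_toFinset).1 (e i).2⟩) fun i j h =>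
      e.injective (Subtype.ext (congrArg Subtype.val h :))
  obtain ⟨K, hK, hrel⟩ := constants D u hu0 hmon w hw
  let Ω := AlgebraicClosure Ω₀
  have hK' : AlgebraicIndependent K fun i => algebraMap Ω₀ Ω (w i) :=
    hK.map' (f := IsScalarTower.toAlgHom K Ω₀ Ω) (algebraMap Ω₀ Ω).injective
  have hF := hK'.algebraicClosure
  have hT : IsScalarTower k (algebraicClosure K Ω) Ω := IsScalarTower.of_algebraMap_eq fun x => rfl
  refine ⟨algebraicClosure K Ω, Ω, inferInstance, inferInstance, inferInstance, inferInstance, inferInstance,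
    inferInstance, hT, inferInstance, (algebraicClosure.isAlgClosure K Ω).isAlgClosed, ?_, ?_⟩
  · have h1 : Set.range (fun i => algebraMap Ω₀ Ω (w i)) ⊆ Rat fun j => algebraMap Ω₀ Ω (y s0 j) := by
      rintro _ ⟨i, rfl⟩
      obtain ⟨a, b, hab⟩ := hwR i
      exact ⟨a, b, (congrArg (algebraMap Ω₀ Ω) hab).trans (map_div₀ _ _ _)⟩
    have h2 : (matroid (algebraicClosure K Ω) Ω).Indep (Set.range fun i => algebraMap Ω₀ Ω (w i)) := by
      rw [matroid_indep_iff]
      exact hF.coe_range
    refine le_trans ?_ ((matroid (algebraicClosure K Ω) Ω).eRk_mono h1)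
    rw [h2.eRk_eq_encard, ← Set.image_univ, hF.injective.encard_image, Set.encard_univ]
    simp
  · intro e he _
    obtain ⟨a, ha, h⟩ := hrel e he
    refine ⟨a, ha, ?_⟩
    have h1 : ∏ i, (algebraMap Ω₀ Ω (u i)) ^ ∑ b, a b * e b i =
        algebraMap Ω₀ Ω (∏ i, u i ^ ∑ b, a b * e b i) := by
      rw [map_prod]
      exact Finset.prod_congr rfl fun i _ => (map_zpow₀ (algebraMap Ω₀ Ω) _ _).symm
    refine ⟨algebraMap K (algebraicClosure K Ω) ⟨_, h⟩, ?_⟩
    rw [h1]
    rfl

end Pool.Agent.GS
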