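import Pool.Agent.Helper16.GS.Init
import Pool.Agent.Helper16.SL.Main
import Pool.Agent.Helper17.GS.NotBad
import Pool.Agent.Helper61.GS.GP
import Pool.Agent.Helper64.GH.Units
import Pool.Agent.Helper64.GS.Dim
import Pool.Agent.Helper77.GS.Core
import Pool.Agent.Helper97.GS.Special

/-!
# GS: the theorem

PROOF. Otherwise take an exhausting sequence `Q m` of polynomials not in `P`, points `y m` with `aeval (y m) (Q m) ≠ 0`, of one degree, a nonprincipal
ultrafilter, the germs of the conjugates (`units`, `germs`), the constants (`init`), and apply `core`: the linear forms are bad.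
-/

set_option autoImplicit false

namespace Pool.Agent.GS

open NumberField IntermediateField Pool.Agent.Helper64.Vojta Pool.Agent.VZ Filter MvPolynomial

universe u

/-- an exhausting sequence for the complement of a prime -/
theorem exists_seqP {R : Type*} [CommRing R] [Countable R] (P : Ideal R) [P.IsPrime] :
    ∃ Q : ℕ → R, (∀ n, Q n ∉ P) ∧ ∀ f, f ∉ P → ∃ M, ∀ n, M ≤ n → f ∣ Q n := by
  classical
  have hne : Nonempty {f : R // f ∉ P} := ⟨⟨1, fun h => (inferInstance : P.IsPrime).ne_top ((Ideal.eq_top_iff_one P).2 h)⟩⟩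
  obtain ⟨p, hp⟩ := exists_surjective_nat {f : R // f ∉ P}
  refine ⟨fun n => ∏ i ∈ Finset.range n, (p i).1, fun n => ?_, fun f hf => ?_⟩
  · intro h
    obtain ⟨i, -, hi⟩ := (Ideal.IsPrime.prod_mem_iff (hp := inferInstance)).1 h
    exact (p i).2 hi
  · obtain ⟨n, hn⟩ := hp ⟨f, hf⟩
    refine ⟨n + 1, fun i hi => ?_⟩
    have h1 : (p n).1 ∣ ∏ i ∈ Finset.range i, (p i).1 :=
      Finset.dvd_prod_of_mem (fun i => (p i).1) (Finset.mem_range.2 hi)
    rwa [hn] at h1

theorem Rat_mul {K : Type u} [Field K] {N : ℕ} (y : Fin (N + 1) → K) (c : K) (hc : c ≠ 0) :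
    Rat (fun j => c * y j) = Rat y := by
  ext z
  constructor
  · rintro ⟨a, b, rfl⟩
    exact ⟨a, b, mul_div_mul_left _ _ hc⟩
  · rintro ⟨a, b, rfl⟩
    exact ⟨a, b, (mul_div_mul_left _ _ hc).symm⟩

/-- extension of the constants -/
theorem onX_map {k F K : Type u} [Field k] [Field F] [Field K] [Algebra k F] [Algebra F K] [Algebra k K]
    [IsScalarTower k F K] {N : ℕ} (I : Set (MvPolynomial (Fin (N + 1)) k)) (y : Fin (N + 1) → K) :
    OnX (MvPolynomial.map (algebraMap k F) '' I) y ↔ OnX I y := by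
  constructor
  · intro h f hf
    have h1 := h _ ⟨f, hf, rfl⟩
    rwa [aeval_map_algebraMap] at h1
  · rintro h _ ⟨f, hf, rfl⟩
    rw [aeval_map_algebraMap]
    exact h f hf

theorem gp_map {k F : Type u} [Field k] [Field F] [Algebra k F] {N n q : ℕ}
    (I : Set (MvPolynomial (Fin (N + 1)) k)) (ℓ : Fin q → Fin (N + 1) → k) (h : GP k I ℓ n) :
    GP F (MvPolynomial.map (algebraMap k F) '' I) (fun i j => algebraMap k F (ℓ i j)) n := by
  intro K _ _ y hy hy0 s hs
  let _ : Algebra k K := ((algebraMap F K).comp (algebraMap k F)).toAlgebra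
  have : IsScalarTower k F K := IsScalarTower.of_algebraMap_eq fun x => rfl
  exact h K y ((onX_map I y).1 hy) hy0 s fun i hi => hs i hi

/-- one degree -/
theorem main_deg {k : Type u} [Field k] [NumberField k] {N n q : ℕ} (hn : 2 ≤ n) (r : ℕ) (hq : r * n + 2 ≤ q)
    (P : Ideal (MvPolynomial (Fin N) k)) [P.IsPrime] (hP : Algebra.trdeg k (MvPolynomial (Fin N) k ⧸ P) = n)
    (ℓ : Fin q → Fin (N + 1) → k) (hGP : GP k (cone P) ℓ n)
    (hbad : ∀ (K : Type u) [Field K] [Algebra k K] (A V : Finset (Fin q)) (ι : Fin q → Fin q),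
      Comb n A V ι → ¬ Bad (cone P) r A V ι fun i j => algebraMap k K (ℓ i j))
    (S : Finset (Pl k)) (C : ℝ) :
    ∃ Q : MvPolynomial (Fin N) k, Q ∉ P ∧ ∀ y : Fin N → AlgebraicClosure k, (∀ f ∈ P, aeval y f = 0) →
      dg y = r → (∀ i, ∑ j, algebraMap k (fld y) (ℓ i j) * crd y j ≠ 0) → q * hgt y - C ≤ lam ℓ S y →
      aeval y Q = 0 := by
  classical
  by_contra hcon
  push Not at hcon
  have hcount : Countable (MvPolynomial (Fin N) k) := Pool.Agent.Helper16.UP.KF.countable_mv k N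
  obtain ⟨Q, hQ0, hQd⟩ := exists_seqP P
  choose y hyP hyr hyD hyN hyQ using fun n => hcon (Q n) (hQ0 n)
  let i0 : Fin q := ⟨0, by omega⟩
  obtain ⟨T, hT⟩ := Pool.Agent.Helper64.GH.units S r ℓ C i0
  choose x s c hc hxs hx0 hxu hxf using fun n => hT (y n) (hyr n) (hyD n) (hyN n)
  set U : Ultrafilter ℕ := Filter.hyperfilter ℕ with hU
  obtain ⟨s0, hs0⟩ := Pool.Agent.Helper26.DMC.SU1.ult_finite U (Set.univ : Set (Fin r))
    Set.finite_univ s (Eventually.of_forall fun _ => Set.mem_univ _)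
  obtain ⟨D, hD1, hD2⟩ := SL.germs (k := k) U
  let X : Fin r → Fin (N + 1) → SL.Om k U := fun σ j => SL.gm U fun n => x n σ j
  have hlin : ∀ (m : Fin (N + 1) → k) (z : ℕ → Fin (N + 1) → AlgebraicClosure k),
      lin (K := SL.Om k U) m (fun i => SL.gm U fun n => z n i) =
        SL.gm U fun n => ∑ j, algebraMap k (AlgebraicClosure k) (m j) * z n j := by
    intro m z
    unfold lin
    have h : (fun n => ∑ j, algebraMap k (AlgebraicClosure k) (m j) * z n j) =
        ∑ j, (fun _ : ℕ => algebraMap k (AlgebraicClosure k) (m j)) * fun n => z n j := by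
      funext n
      rw [Finset.sum_apply]
      rfl
    rw [h, map_sum]
    exact Finset.sum_congr rfl fun j _ => by rw [map_mul]; rfl
  have huu : ∀ i, uu ℓ X i = SL.gm U fun n => ∏ σ, ∑ j, algebraMap k (AlgebraicClosure k) (ℓ i j) * x n σ j := by
    intro i
    unfold uu
    have h : (fun n => ∏ σ, ∑ j, algebraMap k (AlgebraicClosure k) (ℓ i j) * x n σ j) =
        ∏ σ, fun n => ∑ j, algebraMap k (AlgebraicClosure k) (ℓ i j) * x n σ j := by
      funext n
      rw [Finset.prod_apply]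
    rw [h, map_prod]
    exact Finset.prod_congr rfl fun σ _ => hlin (ℓ i) fun n => x n σ
  have huU : ∀ i, D.U (uu ℓ X i) := by
    intro i
    rw [huu]
    exact hD2 T _ (Filter.Eventually.of_forall fun n => hxu n i)
  have hX : ∀ σ, OnX (cone P) (X σ) := by
    rintro σ f ⟨⟨d, hd⟩, hf⟩
    show aeval (fun j => SL.gm U fun n => x n σ j) f = 0
    rw [SL.aeval_gm, SL.gm_zero]
    refine Filter.Eventually.of_forall fun n => hxf n σ d f hd ?_
    have h1 := hyP n _ hf
    rw [← h1]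
    have h2 : (aeval (y n)).comp (aeval (Fin.cons 1 MvPolynomial.X : Fin (N + 1) → MvPolynomial (Fin N) k)) =
        aeval (Fin.cons 1 (y n) : Fin (N + 1) → AlgebraicClosure k) := by
      apply MvPolynomial.algHom_ext
      intro j
      refine Fin.cases ?_ (fun j => ?_) j
      · simp
      · simp
    rw [← h2]
    rfl
  have hgen : (n : ℕ∞) ≤ rk k (Rat (X s0)) := by
    have h1 := generic_point P hP (K := SL.Om k U) (fun j => SL.gm U fun n => y n j) (by
      intro f hf
      by_contra hfP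
      rw [SL.aeval_gm, SL.gm_zero] at hf
      obtain ⟨M, hM⟩ := hQd f hfP
      have h2 : ∀ᶠ n in (U : Filter ℕ), M ≤ n := by
        have h3 : ∀ᶠ n in Filter.cofinite, M ≤ n := by
          rw [Nat.cofinite_eq_atTop]
          exact Filter.eventually_ge_atTop M
        exact h3.filter_mono (Filter.hyperfilter_le_cofinite)
      obtain ⟨m, h3, h4⟩ := (hf.and h2).exists
      obtain ⟨R, hR⟩ := hM m h4
      apply hyQ m
      rw [hR, map_mul, h3, zero_mul])
    have hc0 : SL.gm U c ≠ 0 := by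
      intro h
      rw [SL.gm_zero] at h
      obtain ⟨m, hm⟩ := h.exists
      exact hc m hm
    have h2 : X s0 = fun j => SL.gm U c * (Fin.cons 1 (fun j => SL.gm U fun n => y n j) :
        Fin (N + 1) → SL.Om k U) j := by
      funext j
      have h3 : X s0 j = SL.gm U fun n => c n * (Fin.cons 1 (y n) : Fin (N + 1) → AlgebraicClosure k) j := by
        show SL.gm U (fun n => x n s0 j) = _
        rw [SL.gm_eq]
        filter_upwards [hs0] with m hm
        rw [← hm]
        exact hxs m j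
      rw [h3]
      have h4 : (fun n => c n * (Fin.cons 1 (y n) : Fin (N + 1) → AlgebraicClosure k) j) =
          c * fun n => (Fin.cons 1 (y n) : Fin (N + 1) → AlgebraicClosure k) j := rfl
      rw [h4, map_mul]
      congr 1
      refine Fin.cases ?_ (fun j => ?_) j
      · exact map_one (SL.gm U)
      · rfl
    rw [h2, Rat_mul _ _ hc0]
    exact h1
  obtain ⟨F, Ω, _, _, _, _, _, _, hT1, hT2, hF, hgen', hrank⟩ := init D ℓ s0 X
    (fun i j => (huU i).div (huU j)) hgen
  have hu' : (uu (fun i j => algebraMap k F (ℓ i j)) fun σ j => algebraMap (SL.Om k U) Ω (X σ j)) =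
      fun i => algebraMap (SL.Om k U) Ω (uu ℓ X i) := by
    funext i
    unfold uu
    rw [map_prod]
    refine Finset.prod_congr rfl fun σ _ => ?_
    unfold lin
    rw [map_sum]
    refine Finset.sum_congr rfl fun j _ => ?_
    rw [map_mul, ← IsScalarTower.algebraMap_apply k F Ω, IsScalarTower.algebraMap_apply k (SL.Om k U) Ω]
  obtain ⟨A, V, ι, hcomb, hb⟩ := core (F := F) (Ω := Ω) (n := n) (MvPolynomial.map (algebraMap k F) '' cone P)
    (by
      rintro _ ⟨f, ⟨⟨d, hd⟩, -⟩, rfl⟩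
      exact ⟨d, hd.map _⟩) (by omega) hq (fun i j => algebraMap k F (ℓ i j)) (gp_map _ ℓ hGP) s0
    (fun σ j => algebraMap (SL.Om k U) Ω (X σ j)) (by
      intro σ
      rw [onX_map]
      intro f hf
      have h1 : aeval (fun j => algebraMap (SL.Om k U) Ω (X σ j)) f = algebraMap (SL.Om k U) Ω (aeval (X σ) f) :=
        aeval_algebraMap_apply Ω (X σ) f
      rw [h1, hX σ f hf, map_zero]) (by
      intro i
      rw [hu']
      intro h
      exact (huU i).1 ((map_eq_zero _).1 h)) hgen' (by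
      rw [hu']
      exact hrank)
  obtain ⟨σ₀, z, c', h1, h2⟩ := hb
  exact hbad F A V ι hcomb ⟨σ₀, z, c', fun i hi σ => (onX_map _ _).1 (h1 i hi σ), h2⟩

theorem main {k : Type u} [Field k] [NumberField k] {N n r q : ℕ} (hn : 2 ≤ n) (hq : r * n + 2 ≤ q)
    (P : Ideal (MvPolynomial (Fin N) k)) [P.IsPrime] (hP : Algebra.trdeg k (MvPolynomial (Fin N) k ⧸ P) = n) :
    ∃ Φ : MvPolynomial (Fin q × Fin (N + 1)) k, Φ ≠ 0 ∧ ∀ ℓ : Fin q → Fin (N + 1) → k,
      MvPolynomial.eval (fun p => ℓ p.1 p.2) Φ ≠ 0 → ∀ (S : Finset (Pl k)) (C : ℝ),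
      ∃ Q : MvPolynomial (Fin N) k, Q ∉ P ∧ ∀ y : Fin N → AlgebraicClosure k, (∀ f ∈ P, aeval y f = 0) →
        dg y ≤ r → (∀ i, ∑ j, algebraMap k (fld y) (ℓ i j) * crd y j ≠ 0) → q * hgt y - C ≤ lam ℓ S y →
        aeval y Q = 0 := by
  classical
  have hI : Homog (cone P) := homog_cone P
  have hD : Dim k (cone P) n := dim_le P hP
  obtain ⟨Φ₀, hΦ₀, hG⟩ := gp_generic (q := q) (cone P) hD
  have hq' : ∀ d ∈ Finset.range (r + 1), d * n + 2 ≤ q := by
    intro d hd
    have h1 : d ≤ r := by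
      rw [Finset.mem_range] at hd
      omega
    have h2 := Nat.mul_le_mul_right n h1
    omega
  have hb : ∀ d : ℕ, ∃ Φ : MvPolynomial (Fin q × Fin (N + 1)) k, Φ ≠ 0 ∧ (d ∈ Finset.range (r + 1) →
      ∀ (K : Type u) [Field K] [Algebra k K] (ℓ : Fin q → Fin (N + 1) → K) (A V : Finset (Fin q))
        (ι : Fin q → Fin q), Comb n A V ι → Bad (cone P) d A V ι ℓ →
        aeval (fun p : Fin q × Fin (N + 1) => ℓ p.1 p.2) Φ = 0) := by
    intro d
    by_cases hd : d ∈ Finset.range (r + 1)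
    · obtain ⟨Φ, h1, h2⟩ := bad_poly_of (n := n) (q := q) d (cone P) (fun L _ _ ℓ A V ι hc hind =>
        not_bad_of (cone P) hI A V ι hc (fun K _ _ l μ h1 h2 x hx hX =>
          special (cone P) hD hn (hq' d hd) A V ι hc l μ h1 h2 x hx hX) ℓ hind)
      exact ⟨Φ, h1, fun _ => h2⟩
    · exact ⟨1, one_ne_zero, fun h => absurd h hd⟩
  choose Φ hΦ hB using hb
  refine ⟨Φ₀ * ∏ d ∈ Finset.range (r + 1), Φ d, mul_ne_zero hΦ₀ (Finset.prod_ne_zero_iff.2 fun d _ => hΦ d), ?_⟩
  intro ℓ hℓ S C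
  rw [map_mul, map_prod, mul_ne_zero_iff, Finset.prod_ne_zero_iff] at hℓ
  have hae : ∀ f : MvPolynomial (Fin q × Fin (N + 1)) k, aeval (fun p : Fin q × Fin (N + 1) => ℓ p.1 p.2) f =
      MvPolynomial.eval (fun p => ℓ p.1 p.2) f := fun f => by
    rw [← coe_aeval_eq_eval]
    rfl
  have hGP : GP k (cone P) ℓ n := hG ℓ (by
    rw [hae]
    exact hℓ.1)
  have hdeg : ∀ d : ℕ, ∃ Q : MvPolynomial (Fin N) k, Q ∉ P ∧ (d ∈ Finset.range (r + 1) →
      ∀ y : Fin N → AlgebraicClosure k, (∀ f ∈ P, aeval y f = 0) →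
      dg y = d → (∀ i, ∑ j, algebraMap k (fld y) (ℓ i j) * crd y j ≠ 0) → q * hgt y - C ≤ lam ℓ S y →
      aeval y Q = 0) := by
    intro d
    by_cases hd : d ∈ Finset.range (r + 1)
    · obtain ⟨Q, h1, h2⟩ := main_deg hn d (hq' d hd) P hP ℓ hGP (by
        intro K _ _ A V ι hc h
        apply hℓ.2 d hd
        have h3 := hB d hd K _ A V ι hc h
        have h4 : aeval (fun p : Fin q × Fin (N + 1) => algebraMap k K (ℓ p.1 p.2)) (Φ d) =
            algebraMap k K (aeval (fun p : Fin q × Fin (N + 1) => ℓ p.1 p.2) (Φ d)) :=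
          aeval_algebraMap_apply K (fun p : Fin q × Fin (N + 1) => ℓ p.1 p.2) (Φ d)
        rw [h4, map_eq_zero, hae] at h3
        exact h3) S C
      exact ⟨Q, h1, fun _ => h2⟩
    · exact ⟨1, fun h => (inferInstance : P.IsPrime).ne_top ((Ideal.eq_top_iff_one P).2 h), fun h => absurd h hd⟩
  choose Q hQ0 hQ using hdeg
  refine ⟨∏ d ∈ Finset.range (r + 1), Q d, ?_, ?_⟩
  · intro h
    obtain ⟨i, -, hi⟩ := (Ideal.IsPrime.prod_mem_iff (hp := inferInstance)).1 h
    exact hQ0 i hi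
  · intro y hy hd h1 h2
    rw [map_prod]
    have h3 : dg y ∈ Finset.range (r + 1) := Finset.mem_range.2 (by omega)
    exact Finset.prod_eq_zero h3 (hQ _ h3 y hy rfl h1 h2)

end Pool.Agent.GS
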